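import Mathlib
import Pool.Agent.K1H77.PA.Stm

/-! # The unambiguous automaton (piece `S_AUT`) -/

set_option autoImplicit false

open Module

namespace Pool.Agent.K1H1.PA

open Pool.Agent.K1H77.PA

section W

variable {Q L : Type} [Field L]

open Classical in
/-- the second component of a chosen element of `C`, if its first component is `q` -/
noncomputable def W (C : Q × L → Prop) (q : Q) : L :=
  if h : ∃ z, C z then (if h.choose.1 = q then h.choose.2 else 0) else 0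

theorem W_ne {C : Q × L → Prop} {q : Q} (h : W C q ≠ 0) : C (q, W C q) := by
  classical
  unfold W at h ⊢
  split_ifs at h ⊢ with h1 h2
  · have := h1.choose_spec
    rw [← h2]
    exact this
  · exact absurd rfl h
  · exact absurd rfl h

theorem W_uniq {C : Q × L → Prop} {q q' : Q} (h : W C q ≠ 0) (h' : W C q' ≠ 0) : q = q' := by
  classical
  unfold W at h h'
  split_ifs at h h' with h1 h2 h3
  · rw [← h2, ← h3]
  all_goals first | exact absurd rfl h | exact absurd rfl h'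

theorem W_ex {C : Q × L → Prop} (h : ∃ z, C z) :
    ∃ z, C z ∧ W C z.1 = z.2 ∧ ∀ q, q ≠ z.1 → W C q = 0 := by
  classical
  refine ⟨h.choose, h.choose_spec, ?_, ?_⟩
  · unfold W
    simp [h]
  · intro q hq
    unfold W
    rw [dif_pos h, if_neg (Ne.symm hq)]

theorem W_zero {C : Q × L → Prop} (h : ¬ ∃ z, C z) (q : Q) : W C q = 0 := by
  classical
  unfold W
  simp [h]

end W

section Main

variable {L σ V : Type} [Field L] [AddCommGroup V] [Module L V]
variable {n : ℕ} (U : Fin n → Submodule L V) (P : ∀ j, Set (Dual L (U j)))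

/-- states -/
abbrev St : Type := Σ j : Fin n, {p : Dual L (U j) // p ∈ P j ∧ p ≠ 0}

variable {U P}

open Classical in
/-- evaluation of the functional of a state -/
noncomputable def ev (q : St U P) (x : V) : L := if h : x ∈ U q.1 then q.2.1 ⟨x, h⟩ else 0

theorem ev_of (q : St U P) {x : V} (h : x ∈ U q.1) : ev q x = q.2.1 ⟨x, h⟩ := by
  classical
  simp [ev, h]

variable (ρ : σ → End L V) (φ : Dual L V) (kk : σ → Fin n → Fin n)

/-- condition of a transition -/
def CM (a : σ) (q : St U P) (j : Fin n) (z : St U P × L) : Prop :=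
  z.1.1 = j ∧ q.1 = kk a j ∧ z.2 ≠ 0 ∧ ∀ u ∈ U j, ev q (ρ a u) = z.2 * ev z.1 u

/-- condition of an initial weight -/
def CI (w1 : List σ) (k : Fin n) (z : St U P × L) : Prop :=
  z.1.1 = k ∧ z.2 ≠ 0 ∧ ∀ x ∈ U k, φ (act ρ w1 x) = z.2 * ev z.1 x

open Classical in
/-- the automaton -/
noncomputable def aut (w1 : List σ) (x0 : V) (j0 : Fin n) : GA L σ (St U P) where
  I q := W (CI ρ φ w1 q.1) q
  M a q q' := W (CM ρ kk a q q'.1) q'
  F q := if q.1 = j0 then ev q x0 else 0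

/-- the component of a word -/
def jj (j0 : Fin n) : List σ → Fin n
  | [] => j0
  | a :: w => kk a (jj j0 w)

theorem act_cons (a : σ) (w : List σ) (x : V) : act ρ (a :: w) x = ρ a (act ρ w x) := by
  simp [act]

theorem act_nil (x : V) : act ρ [] x = x := by
  simp [act]

theorem act_snoc (a : σ) (w : List σ) (x : V) : act ρ (w ++ [a]) x = act ρ w (ρ a x) := by
  simp [act]

variable {ρ φ kk}

theorem M_ne {w1 : List σ} {x0 : V} {j0 : Fin n} {a : σ} {q q' : St U P}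
    (h : (aut ρ φ kk w1 x0 j0).M a q q' ≠ 0) :
    q.1 = kk a q'.1 ∧ ∀ u ∈ U q'.1, ev q (ρ a u) = (aut ρ φ kk w1 x0 j0).M a q q' * ev q' u := by
  have h1 := W_ne (C := CM ρ kk a q q'.1) (q := q') h
  exact ⟨h1.2.1, h1.2.2.2⟩

variable [Fintype (St U P)]

theorem off {w1 : List σ} {x0 : V} {j0 : Fin n} (w : List σ) (q : St U P)
    (h : q.1 ≠ jj kk j0 w) :
    (aut ρ φ kk w1 x0 j0).vec w q = 0 ∧ (aut ρ φ kk w1 x0 j0).cnt w q = 0 := by
  classical
  induction w generalizing q with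
  | nil =>
    have : (aut ρ φ kk w1 x0 j0).F q = 0 := by
      simp only [aut]
      exact if_neg h
    simp [GA.vec, GA.cnt, this]
  | cons a w ih =>
    constructor
    · simp only [GA.vec]
      refine Finset.sum_eq_zero fun q' _ => ?_
      by_cases hq : q'.1 = jj kk j0 w
      · by_cases hM : (aut ρ φ kk w1 x0 j0).M a q q' = 0
        · rw [hM, zero_mul]
        · exact absurd ((M_ne hM).1.trans (by rw [hq]; rfl)) h
      · rw [(ih q' hq).1, mul_zero]
    · simp only [GA.cnt]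
      refine Finset.sum_eq_zero fun q' _ => ?_
      by_cases hq : q'.1 = jj kk j0 w
      · by_cases hM : (aut ρ φ kk w1 x0 j0).M a q q' = 0
        · simp [hM]
        · exact absurd ((M_ne hM).1.trans (by rw [hq]; rfl)) h
      · rw [(ih q' hq).2, ite_self]

/-- at most one state of the component `j` has nonzero weight -/
theorem one (C : Fin n → St U P × L → Prop) (f : St U P → ℕ) (j : Fin n)
    (h0 : ∀ q, q.1 ≠ j → f q = 0) (h1 : ∀ q, f q ≤ 1) [∀ q : St U P, Decidable (W (C q.1) q ≠ 0)] :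
    ∑ q : St U P, (if W (C q.1) q ≠ 0 then f q else 0) ≤ 1 := by
  classical
  by_cases hex : ∃ q0 : St U P, q0.1 = j ∧ W (C q0.1) q0 ≠ 0
  · obtain ⟨q0, hq0, hW⟩ := hex
    rw [Finset.sum_eq_single q0]
    · rw [if_pos hW]
      exact h1 q0
    · intro q _ hq
      by_cases hj : q.1 = j
      · rw [if_neg]
        intro hW'
        apply hq
        rw [hj] at hW'
        rw [hq0] at hW
        exact W_uniq hW' hW
      · rw [h0 q hj, ite_self]
    · intro h
      exact absurd (Finset.mem_univ _) h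
  · rw [Finset.sum_eq_zero]
    · exact Nat.zero_le _
    · intro q _
      by_cases hj : q.1 = j
      · rw [if_neg]
        intro hW
        exact hex ⟨q, hj, hW⟩
      · rw [h0 q hj, ite_self]

theorem cnt_le {w1 : List σ} {x0 : V} {j0 : Fin n} (w : List σ) (q : St U P) :
    (aut ρ φ kk w1 x0 j0).cnt w q ≤ 1 := by
  classical
  induction w generalizing q with
  | nil =>
    simp only [GA.cnt]
    split_ifs <;> simp
  | cons a w ih =>
    simp only [GA.cnt]
    exact one (fun j => CM ρ kk a q j) (fun q' => (aut ρ φ kk w1 x0 j0).cnt w q') (jj kk j0 w)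
      (fun q' hq' => (off w q' hq').2) ih

theorem amb_le {w1 : List σ} {x0 : V} {j0 : Fin n} (w : List σ) :
    (aut ρ φ kk w1 x0 j0 : GA L σ (St U P)).amb w ≤ 1 := by
  classical
  simp only [GA.amb]
  exact one (fun j => CI ρ φ w1 j) (fun q' => (aut ρ φ kk w1 x0 j0).cnt w q') (jj kk j0 w)
      (fun q' hq' => (off w q' hq').2) (cnt_le w)

/-- a sum of weights -/
theorem wsum (C : Fin n → St U P × L → Prop) (g : St U P → L) (j : Fin n)
    (hC : ∀ z, C j z → z.1.1 = j) (h0 : ∀ q, q.1 ≠ j → g q = 0) :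
    (∃ z, C j z ∧ ∑ q : St U P, W (C q.1) q * g q = z.2 * g z.1) ∨
      ((¬ ∃ z, C j z) ∧ ∑ q : St U P, W (C q.1) q * g q = 0) := by
  classical
  by_cases hex : ∃ z, C j z
  · left
    obtain ⟨z, hz, hW, hW0⟩ := W_ex hex
    refine ⟨z, hz, ?_⟩
    have hz1 := hC z hz
    rw [Finset.sum_eq_single z.1]
    · rw [hz1, hW]
    · intro q _ hq
      by_cases hj : q.1 = j
      · rw [hj, hW0 q hq, zero_mul]
      · rw [h0 q hj, mul_zero]
    · intro h
      exact absurd (Finset.mem_univ _) h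
  · right
    refine ⟨hex, Finset.sum_eq_zero fun q _ => ?_⟩
    by_cases hj : q.1 = j
    · rw [hj, W_zero hex, zero_mul]
    · rw [h0 q hj, mul_zero]

/-- reachable states -/
def Reach (ρ : σ → End L V) (φ : Dual L V) (q : St U P) : Prop :=
  ∃ (u : List σ) (c : L), c ≠ 0 ∧ ∀ x ∈ U q.1, φ (act ρ u x) = c * ev q x

omit [Fintype (St U P)] in
theorem mem_jj {x0 : V} {j0 : Fin n} (hx0 : x0 ∈ U j0)
    (hk : ∀ a j, ∀ u ∈ U j, ρ a u ∈ U (kk a j)) (w : List σ) :
    act ρ w x0 ∈ U (jj kk j0 w) := by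
  induction w with
  | nil => rw [act_nil]; exact hx0
  | cons a w ih => rw [act_cons]; exact hk a _ _ ih

omit [Fintype (St U P)] in
theorem exists_CM (hk : ∀ a j, ∀ u ∈ U j, ρ a u ∈ U (kk a j))
    (hP : ∀ w j, ∃ p ∈ P j, ∃ c : L, (φ ∘ₗ act ρ w).domRestrict (U j) = c • p)
    {q : St U P} (hr : Reach ρ φ q) (a : σ) (j : Fin n) (hq : q.1 = kk a j)
    (hne : ∃ u ∈ U j, ev q (ρ a u) ≠ 0) : ∃ z, CM ρ kk a q j z := by
  obtain ⟨u, c, hc, hu⟩ := hr
  obtain ⟨p, hp, c', hp'⟩ := hP (u ++ [a]) j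
  have key : ∀ x (hx : x ∈ U j), ev q (ρ a x) = c⁻¹ * c' * p ⟨x, hx⟩ := by
    intro x hx
    have h1 := congrArg (fun f => f ⟨x, hx⟩) hp'
    simp only [LinearMap.domRestrict_apply, LinearMap.comp_apply, LinearMap.smul_apply,
      smul_eq_mul] at h1
    rw [act_snoc, hu _ (by rw [hq]; exact hk a j x hx)] at h1
    rw [mul_assoc, ← h1, inv_mul_cancel_left₀ hc]
  obtain ⟨x, hx, hxe⟩ := hne
  rw [key x hx] at hxe
  have hp0 : p ≠ 0 := by
    rintro rfl
    simp at hxe
  refine ⟨(⟨j, p, hp, hp0⟩, c⁻¹ * c'), rfl, hq, left_ne_zero_of_mul hxe, ?_⟩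
  intro y hy
  rw [key y hy, ev_of]

omit [Fintype (St U P)] in
theorem exists_CI (w1 : List σ)
    (hP : ∀ w j, ∃ p ∈ P j, ∃ c : L, (φ ∘ₗ act ρ w).domRestrict (U j) = c • p)
    (j : Fin n) (hne : ∃ u ∈ U j, φ (act ρ w1 u) ≠ 0) :
    ∃ z : St U P × L, CI ρ φ w1 j z := by
  obtain ⟨p, hp, c', hp'⟩ := hP w1 j
  have key : ∀ x (hx : x ∈ U j), φ (act ρ w1 x) = c' * p ⟨x, hx⟩ := by
    intro x hx
    have h1 := congrArg (fun f => f ⟨x, hx⟩) hp'
    simpa only [LinearMap.domRestrict_apply, LinearMap.comp_apply, LinearMap.smul_apply,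
      smul_eq_mul] using h1
  obtain ⟨x, hx, hxe⟩ := hne
  rw [key x hx] at hxe
  have hp0 : p ≠ 0 := by
    rintro rfl
    simp at hxe
  refine ⟨(⟨j, p, hp, hp0⟩, c'), rfl, left_ne_zero_of_mul hxe, ?_⟩
  intro y hy
  rw [key y hy, ev_of]

theorem vec_eq {w1 : List σ} {x0 : V} {j0 : Fin n} (hx0 : x0 ∈ U j0)
    (hk : ∀ a j, ∀ u ∈ U j, ρ a u ∈ U (kk a j))
    (hP : ∀ w j, ∃ p ∈ P j, ∃ c : L, (φ ∘ₗ act ρ w).domRestrict (U j) = c • p)
    (w : List σ) (q : St U P) (hq : q.1 = jj kk j0 w) (hr : Reach ρ φ q) :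
    (aut ρ φ kk w1 x0 j0).vec w q = ev q (act ρ w x0) := by
  classical
  induction w generalizing q with
  | nil =>
    simp only [GA.vec, aut, act_nil]
    exact if_pos hq
  | cons a w ih =>
    have hmem := mem_jj (ρ := ρ) (kk := kk) hx0 hk w
    simp only [GA.vec]
    rcases wsum (fun j => CM ρ kk a q j) ((aut ρ φ kk w1 x0 j0).vec w) (jj kk j0 w)
      (fun z hz => hz.1) (fun q' hq' => (off w q' hq').1) with ⟨z, hz, hs⟩ | ⟨hz, hs⟩
    · refine hs.trans ?_
      obtain ⟨hz1, hz2, hz3, hz4⟩ := hz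
      have hrz : Reach ρ φ z.1 := by
        obtain ⟨u, c, hc, hu⟩ := hr
        refine ⟨u ++ [a], c * z.2, mul_ne_zero hc hz3, ?_⟩
        intro x hx
        rw [hz1] at hx
        rw [act_snoc, hu _ (by rw [hz2]; exact hk a _ x hx), hz4 x hx, mul_assoc]
      rw [ih z.1 hz1 hrz, act_cons, hz4 _ hmem]
    · refine hs.trans ?_
      rw [act_cons]
      by_contra hne
      exact hz (exists_CM hk hP hr a _ hq ⟨_, hmem, Ne.symm hne⟩)

theorem val_eq {w1 : List σ} {x0 : V} {j0 : Fin n} (hx0 : x0 ∈ U j0)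
    (hk : ∀ a j, ∀ u ∈ U j, ρ a u ∈ U (kk a j))
    (hP : ∀ w j, ∃ p ∈ P j, ∃ c : L, (φ ∘ₗ act ρ w).domRestrict (U j) = c • p)
    (w : List σ) :
    (aut ρ φ kk w1 x0 j0 : GA L σ (St U P)).val w = φ (act ρ w1 (act ρ w x0)) := by
  classical
  have hmem := mem_jj (ρ := ρ) (kk := kk) hx0 hk w
  simp only [GA.val]
  rcases wsum (U := U) (P := P) (fun j => CI ρ φ w1 j) ((aut ρ φ kk w1 x0 j0).vec w) (jj kk j0 w)
      (fun z hz => hz.1) (fun q' hq' => (off w q' hq').1) with ⟨z, hz, hs⟩ | ⟨hz, hs⟩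
  · refine hs.trans ?_
    obtain ⟨hz1, hz3, hz4⟩ := hz
    have hrz : Reach ρ φ z.1 := by
      refine ⟨w1, z.2, hz3, ?_⟩
      intro x hx
      rw [hz1] at hx
      exact hz4 x hx
    rw [vec_eq hx0 hk hP w z.1 hz1 hrz, hz4 _ hmem]
  · refine hs.trans ?_
    by_contra hne
    exact hz (exists_CI w1 hP _ ⟨_, hmem, Ne.symm hne⟩)

omit [Fintype (St U P)] in
theorem run_spec {w1 : List σ} {x0 : V} {j0 : Fin n}
    (hk : ∀ a j, ∀ u ∈ U j, ρ a u ∈ U (kk a j)) {w : List σ} {q q' : St U P} {c : L}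
    (h : (aut ρ φ kk w1 x0 j0).Run w q q' c) :
    c ≠ 0 ∧ ∀ u ∈ U q'.1, act ρ w u ∈ U q.1 ∧ ev q (act ρ w u) = c * ev q' u := by
  induction h with
  | nil q =>
    refine ⟨one_ne_zero, fun u hu => ?_⟩
    rw [act_nil, one_mul]
    exact ⟨hu, rfl⟩
  | cons h hr ih =>
    refine ⟨mul_ne_zero h ih.1, fun u hu => ?_⟩
    obtain ⟨h1, h2⟩ := ih.2 u hu
    obtain ⟨h3, h4⟩ := M_ne h
    rw [act_cons, h4 _ h1, h2, mul_assoc]
    refine ⟨?_, rfl⟩
    rw [h3]
    exact hk _ _ _ h1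

omit [Fintype (St U P)] in
theorem run_eig [FiniteDimensional L V] {w1 : List σ} {x0 : V} {j0 : Fin n}
    (hk : ∀ a j, ∀ u ∈ U j, ρ a u ∈ U (kk a j)) {w : List σ} {q : St U P} {c : L}
    (h : (aut ρ φ kk w1 x0 j0).Run w q q c) : c ≠ 0 ∧ (act ρ w).HasEigenvalue c := by
  obtain ⟨hc, hu⟩ := run_spec hk h
  refine ⟨hc, ?_⟩
  have hinv : ∀ u ∈ U q.1, act ρ w u ∈ U q.1 := fun u h => (hu u h).1
  set T : End L (U q.1) := (act ρ w).restrict hinv with hT
  have hψ : ∀ u : U q.1, q.2.1 (T u) = c * q.2.1 u := by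
    intro u
    have h1 := (hu u.1 u.2).2
    rw [ev_of q (hinv u.1 u.2), ev_of q u.2] at h1
    exact h1
  have hni : ¬ Function.Injective (T - c • (1 : End L (U q.1))) := by
    intro hi
    have hs := LinearMap.injective_iff_surjective.1 hi
    apply q.2.2.2
    refine LinearMap.ext fun y => ?_
    obtain ⟨x, rfl⟩ := hs y
    rw [LinearMap.sub_apply, map_sub, hψ, LinearMap.smul_apply, map_smul]
    simp
  rw [← LinearMap.ker_eq_bot, Submodule.eq_bot_iff] at hni
  push Not at hni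
  obtain ⟨x, hx, hx0'⟩ := hni
  rw [LinearMap.mem_ker, LinearMap.sub_apply, sub_eq_zero] at hx
  refine Module.End.hasEigenvalue_of_hasEigenvector (x := (x : V)) ⟨?_, ?_⟩
  · rw [Module.End.mem_eigenspace_iff]
    have := congrArg Subtype.val hx
    simpa [hT] using this
  · simpa using hx0'

end Main

theorem t_AUT : S_AUT := by
  intro L σ V _ _ _ _ ρ v φ n U P hfin hv hk hP E hE w1 w2
  classical
  choose kk hkk using hk
  obtain ⟨j0, hj0⟩ := hv w2
  have : ∀ j, Finite {p : Dual L (U j) // p ∈ P j ∧ p ≠ 0} := fun j =>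
    ((hfin j).subset (fun p hp => hp.1) : {p : Dual L (U j) | p ∈ P j ∧ p ≠ 0}.Finite).to_subtype
  have : Fintype (St U P) := Fintype.ofFinite _
  refine ⟨St U P, inferInstance, aut ρ φ kk w1 (act ρ w2 v) j0, ⟨1, 0, fun w => ?_⟩, ?_, ?_⟩
  · simpa using amb_le w
  · intro w q c hw hr
    obtain ⟨h1, h2⟩ := run_eig hkk hr
    exact hE w c hw h1 h2
  · intro w
    exact val_eq hj0 hkk hP w

end Pool.Agent.K1H1.PA
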