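import Mathlib
import Pool.Agent.K1H77.PA.Stm

/-! # The perfect core of a finitely generated field of characteristic `p` is finite -/

set_option autoImplicit false

open Polynomial

namespace Pool.Agent.K1H1.PA

open Pool.Agent.K1H77.PA

section CP

variable {K : Type} [Field K] {n : Type} [Fintype n] [DecidableEq n] (p : ℕ) [Fact p.Prime]
  [CharP K p]

/-- the characteristic polynomial of a `p^k`-th power of a matrix -/
theorem expand_charpoly_pow (k : ℕ) (M : Matrix n n K) :
    expand K (p ^ k) (M ^ p ^ k).charpoly = M.charpoly ^ p ^ k := by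
  cases (isEmpty_or_nonempty n).symm
  · unfold Matrix.charpoly
    rw [AlgHom.map_det, ← Matrix.coe_detMonoidHom,
      ← (Matrix.detMonoidHom : Matrix n n K[X] →* K[X]).map_pow]
    apply congr_arg Matrix.det
    refine matPolyEquiv.injective ?_
    rw [map_pow, Matrix.matPolyEquiv_charmatrix, sub_pow_char_pow_of_commute, ← C_pow]
    · exact (id (matPolyEquiv_eq_X_pow_sub_C (p ^ k) M) :)
    · exact (C M).commute_X
  · have h1 : (M ^ p ^ k).charpoly = 1 := by
      unfold Matrix.charpoly
      exact Matrix.det_isEmpty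
    have h2 : M.charpoly = 1 := by
      unfold Matrix.charpoly
      exact Matrix.det_isEmpty
    rw [h1, h2, one_pow, map_one]

theorem charpoly_pow_coeff (k : ℕ) (M : Matrix n n K) (i : ℕ) :
    (M ^ p ^ k).charpoly.coeff i = M.charpoly.coeff i ^ p ^ k := by
  have hp : 0 < p ^ k := pow_pos (Fact.out : p.Prime).pos k
  have h := expand_charpoly_pow p k M
  rw [← map_iterateFrobenius_expand p] at h
  have h1 := congrArg (fun f => f.coeff (i * p ^ k)) h
  simp only [coeff_map] at h1
  rw [coeff_expand_mul hp, coeff_expand_mul hp, iterateFrobenius_def] at h1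
  exact h1

end CP

section UFD

variable {F : Type} [Field F]

/-- the core of a field of rational functions -/
theorem core_ratfunc (p : ℕ) (hp : 1 < p) (R K : Type) [CommRing R] [IsDomain R]
    [UniqueFactorizationMonoid R] (deg : R → ℕ) (hmul : ∀ f g, f ≠ 0 → g ≠ 0 →
      deg (f * g) = deg f + deg g) (emb : F →+* R) (hdeg : ∀ f, deg f = 0 → ∃ c : F, emb c = f)
    [Field K] [Algebra R K] [IsFractionRing R K] (x : K)
    (h : ∀ k : ℕ, ∃ y, y ^ p ^ k = x) :
    ∃ c : F, algebraMap R K (emb c) = x := by
  classical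
  by_cases hx : x = 0
  · exact ⟨0, by rw [hx, map_zero, map_zero]⟩
  have hpow : ∀ (q : ℕ) (f : R), f ≠ 0 → deg (f ^ q) = q * deg f := by
    intro q f hf
    induction q with
    | zero =>
      rw [pow_zero, zero_mul]
      have := hmul 1 1 one_ne_zero one_ne_zero
      rw [one_mul] at this
      omega
    | succ q ih =>
      rw [pow_succ, hmul _ _ (pow_ne_zero _ hf) hf, ih]
      ring
  -- a divisor argument
  have key : ∀ (q : ℕ), q ≠ 0 → ∀ y : K, y ^ q = x →
      (IsFractionRing.num R y ^ q ∣ IsFractionRing.num R x ∧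
        IsFractionRing.num R x ∣ IsFractionRing.num R y ^ q) ∧
      (((IsFractionRing.den R y : R)) ^ q ∣ (IsFractionRing.den R x : R) ∧
        (IsFractionRing.den R x : R) ∣ ((IsFractionRing.den R y : R)) ^ q) := by
    intro q hq y hy
    have hx1 := IsFractionRing.mk'_num_den' R x
    have hy1 := IsFractionRing.mk'_num_den' R y
    have hdx : (algebraMap R K) (IsFractionRing.den R x : R) ≠ 0 :=
      IsLocalization.to_map_ne_zero_of_mem_nonZeroDivisors K le_rfl (IsFractionRing.den R x).2
    have hdy : (algebraMap R K) (IsFractionRing.den R y : R) ≠ 0 :=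
      IsLocalization.to_map_ne_zero_of_mem_nonZeroDivisors K le_rfl (IsFractionRing.den R y).2
    have e : IsFractionRing.num R x * (IsFractionRing.den R y : R) ^ q =
        IsFractionRing.num R y ^ q * (IsFractionRing.den R x : R) := by
      apply IsFractionRing.injective R K
      rw [map_mul, map_mul, map_pow, map_pow]
      have h1 : (algebraMap R K) (IsFractionRing.num R x) / (algebraMap R K) (IsFractionRing.den R x)
          = ((algebraMap R K) (IsFractionRing.num R y) /
            (algebraMap R K) (IsFractionRing.den R y)) ^ q := by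
        rw [hx1, hy1, hy]
      rw [div_pow, div_eq_div_iff hdx (pow_ne_zero _ hdy)] at h1
      exact h1
    have rx := IsFractionRing.num_den_reduced R x
    have ry := (IsFractionRing.num_den_reduced R y).pow (m := q) (n := q)
    refine ⟨⟨?_, ?_⟩, ?_, ?_⟩
    · exact ry.dvd_of_dvd_mul_right (e ▸ Dvd.intro _ rfl)
    · exact rx.dvd_of_dvd_mul_right (e ▸ Dvd.intro _ rfl)
    · exact ry.symm.dvd_of_dvd_mul_left (e ▸ Dvd.intro_left _ rfl)
    · exact rx.symm.dvd_of_dvd_mul_left (e ▸ Dvd.intro_left _ rfl)
  -- constants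
  have const : ∀ a : R, a ≠ 0 → (∀ k : ℕ, ∃ b : R, b ^ p ^ k ∣ a ∧ a ∣ b ^ p ^ k) →
      ∃ c : F, emb c = a := by
    intro a ha hb
    obtain ⟨b, ⟨u, hu⟩, ⟨v, hv⟩⟩ := hb (deg a)
    have hu0 : u ≠ 0 := by rintro rfl; exact ha (by rw [hu, mul_zero])
    have hb0 : b ^ p ^ (deg a) ≠ 0 := by
      intro h0; exact ha (by rw [hu, h0, zero_mul])
    have hv0 : v ≠ 0 := by rintro rfl; exact hb0 (by rw [hv, mul_zero])
    have hb1 : b ≠ 0 := by
      rintro rfl
      exact hb0 (zero_pow (pow_ne_zero _ (by omega)))
    have h1 := congrArg deg hu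
    have h2 := congrArg deg hv
    rw [hmul _ _ hb0 hu0, hpow _ _ hb1] at h1
    rw [hmul _ _ ha hv0, hpow _ _ hb1] at h2
    have h3 : deg a < p ^ (deg a) := Nat.lt_pow_self hp
    have h4 : deg b = 0 := by
      by_contra h4
      have : p ^ (deg a) * 1 ≤ p ^ (deg a) * deg b :=
        Nat.mul_le_mul_left _ (Nat.one_le_iff_ne_zero.2 h4)
      omega
    rw [h4, mul_zero] at h2
    have h5 : deg a = 0 := by omega
    exact hdeg a h5
  have hn0 : IsFractionRing.num R x ≠ 0 := by
    intro h0
    apply hx
    have := IsFractionRing.mk'_num_den' R x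
    rw [h0, map_zero, zero_div] at this
    exact this.symm
  have hd0 : (IsFractionRing.den R x : R) ≠ 0 := nonZeroDivisors.ne_zero (IsFractionRing.den R x).2
  obtain ⟨c, hc⟩ := const _ hn0 (fun k => by
    obtain ⟨y, hy⟩ := h k
    have hk : p ^ k ≠ 0 := pow_ne_zero _ (by omega)
    exact ⟨_, (key _ hk y hy).1⟩)
  obtain ⟨d, hd⟩ := const _ hd0 (fun k => by
    obtain ⟨y, hy⟩ := h k
    have hk : p ^ k ≠ 0 := pow_ne_zero _ (by omega)
    exact ⟨_, (key _ hk y hy).2⟩)
  refine ⟨c / d, ?_⟩
  have := IsFractionRing.mk'_num_den' R x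
  rw [← hc, ← hd] at this
  have hd1 : d ≠ 0 := by
    rintro rfl
    rw [map_zero] at hd
    exact hd0 hd.symm
  rw [← this, eq_div_iff, ← map_mul, ← map_mul, div_mul_cancel₀ c hd1]
  rw [hd]
  exact IsLocalization.to_map_ne_zero_of_mem_nonZeroDivisors K le_rfl (IsFractionRing.den R x).2

end UFD

section Main

variable {F M : Type} [Field F] [Finite F] [Field M] [Algebra F M] (p : ℕ) [Fact p.Prime]
  [CharP M p]

open IntermediateField in
theorem core_finite [Algebra.EssFiniteType F M] :
    {x : M | ∀ k : ℕ, ∃ y : M, y ^ p ^ k = x}.Finite := by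
  classical
  obtain ⟨s, hs0⟩ :=
    IntermediateField.exists_finset_maximalFor_isTranscendenceBasis_separableClosure (F := F)
      (E := M)
  have hs : IsTranscendenceBasis F (Subtype.val : ↥(s : Set M) → M) := hs0.prop
  have hfin : Module.Finite (adjoin F (s : Set M)) M := by
    apply +allowSynthFailures Algebra.finite_of_essFiniteType_of_isAlgebraic
    · exact .of_comp F _ _
    · convert! hs.isAlgebraic_field <;> simp
  set E := adjoin F (s : Set M) with hE
  -- the core of `E`
  have hcoreE : ∀ x : E, (∀ k : ℕ, ∃ y : E, y ^ p ^ k = x) → ∃ c : F, algebraMap F E c = x := by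
    intro x hx
    have hr : adjoin F (Set.range (Subtype.val : ↥(s : Set M) → M)) = E := by
      rw [hE]; simp
    let e : FractionRing (MvPolynomial (s : Set M) F) ≃ₐ[F] E :=
      hs.1.aevalEquivField.trans (IntermediateField.equivOfEq hr)
    obtain ⟨c, hc⟩ := core_ratfunc (F := F) p (Fact.out : p.Prime).one_lt
      (MvPolynomial (s : Set M) F) (FractionRing (MvPolynomial (s : Set M) F))
      MvPolynomial.totalDegree (fun f g hf hg => MvPolynomial.totalDegree_mul_of_isDomain hf hg)
      MvPolynomial.C (fun f hf => ⟨_, (MvPolynomial.totalDegree_eq_zero_iff_eq_C.1 hf).symm⟩)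
      (e.symm x) (fun k => by
        obtain ⟨y, hy⟩ := hx k
        exact ⟨e.symm y, by rw [← map_pow, hy]⟩)
    refine ⟨c, ?_⟩
    have h1 : e.symm x = algebraMap F _ c := by
      rw [← hc]
      rw [IsScalarTower.algebraMap_apply F (MvPolynomial (s : Set M) F)
        (FractionRing (MvPolynomial (s : Set M) F))]
      rfl
    have h2 := congrArg e h1
    rw [AlgEquiv.apply_symm_apply, AlgEquiv.commutes] at h2
    exact h2.symm
  have : CharP E p := RingHom.charP (algebraMap E M) (algebraMap E M).injective p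
  let b := Module.finBasis E M
  -- characteristic polynomials
  let P : M → E[X] := fun z => (Algebra.leftMulMatrix b z).charpoly
  have hP : ∀ z, aeval z (P z) = 0 := by
    intro z
    apply Algebra.leftMulMatrix_injective b
    rw [← Polynomial.aeval_algHom_apply, map_zero]
    exact Matrix.aeval_self_charpoly _
  have hPdeg : ∀ z, (P z).natDegree = Module.finrank E M := by
    intro z
    simp [P, Matrix.charpoly_natDegree_eq_dim]
  have hPm : ∀ z, (P z).Monic := fun z => Matrix.charpoly_monic _
  have hPc : ∀ x : M, (∀ k : ℕ, ∃ y : M, y ^ p ^ k = x) → ∀ i, ∃ c : F,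
      algebraMap F E c = (P x).coeff i := by
    intro x hx i
    apply hcoreE
    intro k
    obtain ⟨y, hy⟩ := hx k
    refine ⟨(P y).coeff i, ?_⟩
    simp only [P]
    rw [← charpoly_pow_coeff, ← map_pow, hy]
  -- the finite set of polynomials
  let G : Set F[X] := {g | g ≠ 0 ∧ g.natDegree < Module.finrank E M + 1}
  have hG : G.Finite := by
    have h1 : {g : F[X] | g.natDegree < Module.finrank E M + 1}.Finite := by
      have h2 : Finite (Polynomial.degreeLT F (Module.finrank E M + 1)) :=
        Module.finite_of_finite F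
      refine (Set.toFinite ((Polynomial.degreeLT F (Module.finrank E M + 1) :
        Set F[X]))).subset ?_
      intro g hg
      rw [Set.mem_ofPred_eq] at hg
      rw [SetLike.mem_coe, Polynomial.mem_degreeLT]
      exact lt_of_le_of_lt Polynomial.degree_le_natDegree (by exact_mod_cast hg)
    exact h1.subset fun g hg => hg.2
  refine (hG.biUnion (t := fun g => {x : M | aeval x g = 0}) fun g hg => ?_).subset ?_
  · refine ((g.aroots M).toFinset.finite_toSet).subset fun x hx => ?_
    rw [Finset.mem_coe, Multiset.mem_toFinset, Polynomial.mem_aroots]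
    exact ⟨hg.1, hx⟩
  · intro x hx
    rw [Set.mem_ofPred_eq] at hx
    have h1 : P x ∈ Polynomial.lifts (algebraMap F E) := by
      rw [Polynomial.lifts_iff_coeff_lifts]
      intro i
      obtain ⟨c, hc⟩ := hPc x hx i
      exact ⟨c, hc⟩
    obtain ⟨g, hg, hgd, hgm⟩ := Polynomial.lifts_and_natDegree_eq_and_monic h1 (hPm x)
    rw [Set.mem_iUnion₂]
    refine ⟨g, ⟨hgm.ne_zero, ?_⟩, ?_⟩
    · rw [hgd, hPdeg]
      exact Nat.lt_succ_self _
    · have h2 := hP x
      rw [← hg] at h2
      rw [Set.mem_ofPred_eq]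
      rwa [Polynomial.aeval_map_algebraMap] at h2

end Main

theorem t_CORE : S_CORE := by
  intro L _ p _ _ S
  classical
  let K0 := Subfield.closure (S : Set L)
  have : CharP K0 p := RingHom.charP (algebraMap K0 L) (algebraMap K0 L).injective p
  let _ : Algebra (ZMod p) K0 := ZMod.algebra K0 p
  have : Algebra.EssFiniteType (ZMod p) K0 := by
    rw [← IntermediateField.fg_top_iff]
    refine ⟨S.attach.image fun s => ⟨s.1, Subfield.subset_closure s.2⟩, ?_⟩
    rw [eq_top_iff]
    rintro ⟨x, hx⟩ -
    induction hx using Subfield.closure_induction with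
    | mem x hx =>
      apply IntermediateField.subset_adjoin
      rw [Finset.mem_coe, Finset.mem_image]
      exact ⟨⟨x, hx⟩, Finset.mem_attach _ _, rfl⟩
    | one => exact one_mem _
    | add x y hx hy h1 h2 => exact add_mem h1 h2
    | neg x hx h1 => exact neg_mem h1
    | inv x hx h1 => exact inv_mem h1
    | mul x y hx hy h1 h2 => exact mul_mem h1 h2
  have h := core_finite (F := ZMod p) (M := K0) p
  refine (h.image ((↑) : K0 → L)).subset ?_
  intro x hx
  rw [Set.mem_ofPred_eq] at hx
  obtain ⟨x0, hx0, hx1⟩ := hx 0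
  rw [pow_zero, pow_one] at hx1
  subst hx1
  refine ⟨⟨x0, hx0⟩, ?_, rfl⟩
  intro k
  obtain ⟨y, hy, hyx⟩ := hx k
  exact ⟨⟨y, hy⟩, Subtype.ext hyx⟩

end Pool.Agent.K1H1.PA
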